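import Mathlib
import Pool.Agent.Helper84.NCDefs
import Pool.Agent.Helper84.NCGeneral

set_option autoImplicit false

namespace Pool.Agent.Results.MP_be29a0_al.NoSimpleEigenvalue

open Pool.Agent.Helper84 Pool.Agent.Helper84.NCExpr

/-- There is a noncommutative rational function `r` in two variables over the rational numbers
such that, whatever expression `r'` is used to represent it and whatever tuple `X` of square
matrices over `ℚ(t)` in its domain is chosen, no element of `ℚ(t)` is an eigenvalue of
multiplicity one of the matrix `r(X)`. -/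
theorem result :
    ∃ r : NCExpr ℚ (Fin 2),
      (∃ (n : ℕ) (X : Fin 2 → Matrix (Fin n) (Fin n) (RatFunc ℚ)), 0 < n ∧ r.DefinedAt X) ∧
      ∀ r' : NCExpr ℚ (Fin 2), SameFunction (RatFunc ℚ) r r' →
        ∀ n : ℕ, 0 < n → ∀ X : Fin 2 → Matrix (Fin n) (Fin n) (RatFunc ℚ), r'.DefinedAt X →
          ∀ c : RatFunc ℚ, (r'.eval X).charpoly.rootMultiplicity c ≠ 1 := by
  exact general' (Subsingleton.elim _ _) (by norm_num) (by norm_num) (b := -432) (by norm_num)
    [12] rat_points

end Pool.Agent.Results.MP_be29a0_al.NoSimpleEigenvalue
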